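import Pool.Agent.LibSCQ.Main

/-!
There is a finitely generated, non-cyclic, torsion-free group that is lacunary hyperbolic and
quasi-finitely-axiomatizable.
-/

set_option autoImplicit false

namespace Pool.Agent.Results.MP_9a852a_al.LacunaryQFA

open Pool.Agent.LibSCQ

/-- There is a finitely generated non-cyclic torsion-free lacunary hyperbolic QFA group. -/
theorem result : ∃ (G : Type) (_ : Group G), Group.FG G ∧ ¬ IsCyclic G ∧
    (∀ (g : G) (n : ℕ), 0 < n → g ^ n = 1 → g = 1) ∧ LacunaryHyperbolic G ∧ QFA G :=
  main

end Pool.Agent.Results.MP_9a852a_al.LacunaryQFA
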